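import Mathlib
import Pool.Agent.R439.G3I

set_option autoImplicit false

/-!
# The truncated `3F2(1/2, -a, a+1; 1, 1; 1)` modulo `p^3`

Proof: for natural `a` the sum is compared with two terminating cases of Watson's theorem and
expanded to second order in the direction `a -> a + 2pt`; a reflection `a -> -1-a` determines the
remaining second order coefficients.
-/

namespace Pool.Agent.Results.MP_030fd4_nt.AllParameters

open Finset

/-- The truncated hypergeometric sum of the problem: the sum over `0 ≤ k ≤ p-1` of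
`(1/2)_k (-a)_k (a+1)_k / k!^3`. The rising factorial `(x)_k` is the value at `x` of Mathlib's
`ascPochhammer`. -/
noncomputable def F (p : ℕ) [Fact p.Prime] (a : ℚ_[p]) : ℚ_[p] :=
  ∑ k ∈ range p, (ascPochhammer ℚ_[p] k).eval (1 / 2) * (ascPochhammer ℚ_[p] k).eval (-a) *
    (ascPochhammer ℚ_[p] k).eval (a + 1) / (k.factorial : ℚ_[p]) ^ 3

/-- `G` is Morita's `p`-adic gamma function: a continuous function on `ℤ_[p]` whose value at a
positive integer `n` is `(-1)^n` times the product of the integers `0 < j < n` prime to `p`. -/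
def IsMoritaGamma (p : ℕ) [Fact p.Prime] (G : ℤ_[p] → ℤ_[p]) : Prop :=
  Continuous G ∧ ∀ n : ℕ, 1 ≤ n →
    G n = (-1) ^ n * ∏ j ∈ (Ioo 0 n).filter (fun j => ¬ p ∣ j), (j : ℤ_[p])

/-- For every prime `p ≥ 5` Morita's gamma function exists and is unique, and for every `p`-adic
integer `a` whose least nonnegative residue `m` modulo `p` is even, the truncated sum `F p a` minus
`(-1)^((p+1)/2) Γ(-a/2)^2 Γ((a+1)/2)^2` lies in `p^3 ℤ_[p]`. -/
theorem result :
    ∀ (p : ℕ) [Fact p.Prime], 5 ≤ p →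
      ∃ G : ℤ_[p] → ℤ_[p], IsMoritaGamma p G ∧ (∀ G', IsMoritaGamma p G' → G' = G) ∧
        ∀ (a : ℤ_[p]) (m : ℕ), m < p → Even m → (p : ℤ_[p]) ∣ a - m →
          ∃ u v : ℤ_[p], 2 * u = -a ∧ 2 * v = a + 1 ∧
            ∃ z : ℤ_[p], F p (a : ℚ_[p]) -
              (-1) ^ ((p + 1) / 2) * ((G u : ℤ_[p]) : ℚ_[p]) ^ 2 * ((G v : ℤ_[p]) : ℚ_[p]) ^ 2 =
              (p : ℚ_[p]) ^ 3 * (z : ℚ_[p]) := by
  intro p hp h5
  obtain ⟨G, hG⟩ := H623R3.SW.exists_morita (p := p) (by omega)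
  refine ⟨G, hG, fun G' hG' => H623R3.SW.morita_unique hG' hG, fun a m hm he ha => ?_⟩
  have h2 : IsUnit ((2 : ℤ) : ℤ_[p]) := by
    apply R439.G3.unit_int
    intro h
    have := Int.le_of_dvd (by norm_num) h
    omega
  obtain ⟨w, hw⟩ := h2
  have hη : 2 * ((w⁻¹ : ℤ_[p]ˣ) : ℤ_[p]) = 1 := by
    have h4 : (2 : ℤ_[p]) = (w : ℤ_[p]) := by rw [hw]; norm_num
    rw [h4, Units.mul_inv]
  obtain ⟨z, hz⟩ := R439.G3.transfer h5 hG hη a m hm he ha
  refine ⟨-(((w⁻¹ : ℤ_[p]ˣ) : ℤ_[p]) * a), ((w⁻¹ : ℤ_[p]ˣ) : ℤ_[p]) * (a + 1), ?_, ?_, z, ?_⟩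
  · linear_combination (-a) * hη
  · linear_combination (a + 1) * hη
  · have hF : F p (a : ℚ_[p]) = R439.G3.SK p ℚ_[p] ((a : ℚ_[p]) * ((a : ℚ_[p]) + 1)) := by
      unfold F R439.G3.SK
      exact sum_congr rfl fun k _ => R439.G3.term_eq ℚ_[p] (a : ℚ_[p]) k
    rw [hF]
    exact hz

end Pool.Agent.Results.MP_030fd4_nt.AllParameters
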